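import Pool.Agent.Helper55.T5.PrOk
import Pool.Agent.Helper11.T5.Defs

/-!
# T5a (MP_12a1af), SL-N4: the instance of `Pr` for the definitions of `Helper11/T5/Defs`

Level `r` of the static block = static level `t0 + r`; `F0` = front before it
(`FF m l t0` if it is common).
-/

namespace Pool.Agent.Helper55.T5

open Finset Pool.Agent.Helper5.ET Pool.Agent.Helper27.T4 Pool.Agent.Helper27.T5
  Pool.Agent.Helper30.T5 Pool.Agent.Helper22.HW Pool.Agent.Helper22.SL Pool.Agent.Helper11.T5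
  Pool.Agent.Helper39.T5 Pool.Agent.Helper57.T5

/-- the pair of states `l' < l` below the front `t0` -/
noncomputable def prD (m l' l t0 h F0 : ℕ) : Pr Pool.Agent.Helper11.T5.Key where
  h := h
  p := fun r => ps (t0 + r)
  z := fun r => es m (era l) (t0 + r)
  M := Nj l
  M' := Nj l'
  L0 := LL (QQ m (era l)) t0
  F := fun r => if r = 0 then F0 else FF m l (t0 + r)
  F' := fun r => if r = 0 then F0 else FF m l' (t0 + r)
  Y := fun r => Ys m (era l) (t0 + r)
  key := fun r => (Ss m l (t0 + r)).key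
  key' := fun r => (Ss m l' (t0 + r)).key

/-- the keys of the static levels, as a function -/
def skD : ℕ → ℕ → Fin 3 → (Fin 3 → ℕ) → Pool.Agent.Helper11.T5.Key := fun l i f v => hkey l i f v

theorem skey_skD (m : ℕ) : SKey (Pool.Agent.Helper11.T5.Mk m) m skD where
  inj := by
    intro l i f v l' i' f' v' h
    unfold skD hkey at h
    simp only [Prod.mk.injEq, true_and] at h
    exact ⟨h.1, h.2.1, Fin.ext h.2.2.1, h.2.2.2⟩
  size := by
    intro l i f v hi
    obtain ⟨t, rfl⟩ : ∃ t, i = t + 2 := ⟨i - 2, by omega⟩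
    exact Mk_static m l t f v

theorem msk_eq_mask (f : Fin 3) (y : Fin 3 → ℕ) :
    msk f y = mask (univ.filter (fun g => g < f)) y := by
  funext g
  unfold msk mask
  simp only [mem_filter, mem_univ, true_and, Fin.lt_def]

/-- the admissible vectors of the level `i = t + 2` -/
noncomputable def YsD (m j i : ℕ) : Finset (Fin 3 → ℕ) :=
  Fintype.piFinset (fun f : Fin 3 =>
    (Pool.Agent.Helper73.T5.sU (sp (3 * i + f)) (zz m j i f)).filter (fun y => y < Qs m j i))

theorem YsD_adm (m j i : ℕ) : Pool.Agent.Helper73.T5.SAdm (fun f : Fin 3 => sp (3 * i + f))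
    (zz m j i) (YsD m j i) := by
  have hp2 : ∀ n, sp n ≠ 2 := by
    intro n
    have h1 := million_lt_sp n
    have h2 : (2 : ℕ) ≤ 10 ^ 6 := by norm_num
    omega
  exact Pool.Agent.Helper73.T5.sadm_piFinset (fun f =>
    (Pool.Agent.Helper73.T5.sfam_sU (sp_prime _) (hp2 _) _).mono (filter_subset _ _))

theorem prD_eq (m l' l t0 h F0 : ℕ) :
    prD m l' l t0 h F0 = prOf m skD (fun i => YsD m (era l) i) l' l (t0 + 1) h F0 := by
  have e1 : ∀ r, t0 + 1 + r + 1 = t0 + r + 2 := fun r => by omega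
  have e2 : ∀ r, t0 + 1 + r = t0 + r + 1 := fun r => by omega
  unfold prD prOf
  have hL : LL (QQ m (era l)) t0 = Lp m (era l) (t0 + 1) := LL_QQ _ _ _
  have hp : (fun r => ps (t0 + r)) = (fun (r : ℕ) (f : Fin 3) => sp (3 * (t0 + 1 + r + 1) + f)) := by
    funext r f
    rw [e1]
    rfl
  have hz : (fun r => es m (era l) (t0 + r)) =
      (fun (r : ℕ) (f : Fin 3) => zz m (era l) (t0 + 1 + r + 1) f) := by
    funext r f
    rw [e1]
    rfl
  have hF : ∀ x, (fun r => if r = 0 then F0 else FF m x (t0 + r)) =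
      (fun r => if r = 0 then F0 else Nj (ef m (t0 + 1 + r) x)) := by
    intro x
    funext r
    rw [e2]
    rfl
  have hY : (fun r => Ys m (era l) (t0 + r)) =
      (fun r => YsD m (era l) (t0 + 1 + r + 1)) := by
    funext r
    rw [e1]
    rfl
  have hk : ∀ x, (fun r => (Ss m x (t0 + r)).key) =
      (fun (r : ℕ) (f : Fin 3) (y : Fin 3 → ℕ) => skD x (t0 + 1 + r + 1) f (msk f y)) := by
    intro x
    funext r f y
    rw [e1, msk_eq_mask]
    rfl
  rw [hL, hp, hz, hF l, hF l', hY, hk l, hk l']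

variable {m l' l t0 h F0 : ℕ}

theorem prD_q (r : ℕ) (f : Fin 3) :
    (prD m l' l t0 h F0).q r f = ps (t0 + r) f ^ es m (era l) (t0 + r) f := rfl

theorem prD_q' (r : ℕ) (f : Fin 3) :
    (prD m l' l t0 h F0).q r f = Qf m (era l) (t0 + r + 2) f := rfl

theorem prD_Q (r : ℕ) : (prD m l' l t0 h F0).Q r = QQ m (era l) (t0 + r) := rfl

theorem prD_F_zero : (prD m l' l t0 h F0).F 0 = F0 := rfl

theorem prD_F'_zero : (prD m l' l t0 h F0).F' 0 = F0 := rfl

theorem prD_F_succ (r : ℕ) : (prD m l' l t0 h F0).F (r + 1) = FF m l (t0 + r + 1) := rfl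

theorem prD_F'_succ (r : ℕ) : (prD m l' l t0 h F0).F' (r + 1) = FF m l' (t0 + r + 1) := rfl

/-- with the true front -/
theorem prD_F (r : ℕ) : (prD m l' l t0 h (FF m l t0)).F r = FF m l (t0 + r) := by
  cases r <;> rfl

theorem prD_F' (hc : FF m l' t0 = FF m l t0) (r : ℕ) :
    (prD m l' l t0 h (FF m l t0)).F' r = FF m l' (t0 + r) := by
  cases r with
  | zero => rw [prD_F'_zero, Nat.add_zero, hc]
  | succ r => rfl

theorem prD_L (r : ℕ) : (prD m l' l t0 h F0).L r = LL (QQ m (era l)) (t0 + r) := by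
  induction r with
  | zero =>
    unfold Pr.L
    rw [Finset.range_zero, Finset.prod_empty, mul_one]
    rfl
  | succ r ih =>
    rw [Pr.L_succ, ih, prD_Q, ← LL_succ]
    rfl

/-- level `r` of the upper state is the static level `t0 + r` -/
theorem prD_S (r : ℕ) : (prD m l' l t0 h F0).S r = Ss m l (t0 + r) := by
  unfold Pr.S Ss
  rw [prD_L]
  rfl

theorem prD_S' (he : era l' = era l) (r : ℕ) :
    (prD m l' l t0 h F0).S' r = Ss m l' (t0 + r) := by
  unfold Pr.S' Ss
  rw [prD_L, he]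
  rfl

/-- the front `F0` fits -/
abbrev FrD (m l' l t0 F0 : ℕ) : Prop := FrOk m l' l (t0 + 1) F0

theorem frD_common (hb : 10 * m ≤ la (era l)) (hm : t0 + 2 < m)
    (he : era l' = era l) (hc : ef m (t0 + 1) l' = ef m (t0 + 1) l) :
    FrD m l' l t0 (FF m l t0) := frOk_common hb hm he hc

theorem frD_outer (hb : 10 * m ≤ la (era l)) (hm : 2 < m) (hl : l' ≤ l)
    (he : era l' = era l) : FrD m l' l 0 (4 * FF m l 0) := frOk_outer hb hm hl he

/-- **SL-N4 for the definitions of T5a.** -/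
theorem prD_ok (hb : 10 * m ≤ la (era l)) (hm : t0 + 1 + h < m) (hl : l' < l)
    (he : era l' = era l) (hF : FrD m l' l t0 F0)
    (hsize : ∀ r < h, 2 * ((prD m l' l t0 h F0).F r * LL (QQ m (era l)) (t0 + r)) ≤
      FF m l (t0 + r + 1) * LL (QQ m (era l)) (t0 + r + 1))
    (hzF : ∀ r < h, 6 * (prD m l' l t0 h F0).F r < Nj l' * Qf m (era l) (t0 + r + 2) 0)
    (hmid : ∀ r, r + 1 < h → FF m l (t0 + r + 1) ≤
      FF m l' (t0 + r + 1) * Qf m (era l) (t0 + r + 2) 2) :
    (prD m l' l t0 h F0).Ok (Pool.Agent.Helper11.T5.Mk m) := by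
  have e := prD_eq m l' l t0 h F0
  have hL := fun r => prD_L (m := m) (l' := l') (l := l) (t0 := t0) (h := h) (F0 := F0) r
  rw [e] at hL
  rw [e]
  refine prOf_ok (skey_skD m) hb (by omega) (by omega) hl he hF (fun i => YsD_adm _ _ _) ?_ ?_ ?_
  · intro r hr
    have h1 := hsize r hr
    rw [e] at h1
    rw [hL, hL, prOf_F_succ]
    have e2 : t0 + 1 + r + 1 = t0 + r + 1 + 1 := by omega
    rw [e2]
    exact h1
  · intro r hr
    have h1 := hzF r hr
    rw [e] at h1
    have e2 : t0 + 1 + r + 1 = t0 + r + 2 := by omega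
    rw [e2]
    exact h1
  · intro r hr
    have h1 := hmid r hr
    have e2 : t0 + 1 + r + 1 = t0 + r + 2 := by omega
    rw [e2]
    exact h1

/-! ## numbers -/

theorem prD_A_le {k r : ℕ} (hk : t0 + r ≤ k) : (prD m l' l t0 h F0).A r ≤ Ac k := by
  rw [prD_eq]
  exact prOf_A_le (by omega)

theorem prD_A_nonneg (r : ℕ) : 0 ≤ (prD m l' l t0 h F0).A r :=
  Finset.prod_nonneg (fun _ _ => by positivity)

theorem prD_W_le (hm : t0 + 1 + h < m) (hr : 8 ≤ rt m (era l)) {r : ℕ} (hrh : r ≤ h) :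
    (prD m l' l t0 h F0).W r ≤ ((10 : ℝ) ^ 6) ^ (2 * W m (era l) (t0 + 1)) := by
  rw [prD_eq]
  exact prOf_W_le hm hr hrh

theorem prD_gam (hm : t0 + 1 + h < m) (hr : 8 ≤ rt m (era l)) :
    (∀ r < h, (((prD m l' l t0 h F0).q r 0 * (prD m l' l t0 h F0).q r 1 : ℕ) : ℝ) *
      ((prD m l' l t0 h F0).W r * (prD m l' l t0 h F0).q r 1) ≤
        ((10 : ℝ) ^ 6) ^ (5 * W m (era l) (t0 + 1))) ∧
    (prD m l' l t0 h F0).W h ≤ ((10 : ℝ) ^ 6) ^ (5 * W m (era l) (t0 + 1)) := by
  rw [prD_eq]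
  exact prOf_gam hm hr

/-! ## the keys -/

theorem ps_pow_le_QQ (m j t : ℕ) (f : Fin 3) : ps t f ^ es m j t f ≤ QQ m j t :=
  Qf_le_Qs (m := m) j (t + 2) f

theorem lt_of_mem_Ys {j t : ℕ} {y : Fin 3 → ℕ} (hy : y ∈ Ys m j t) (f : Fin 3) :
    y f < QQ m j t :=
  (mem_filter.1 (Fintype.mem_piFinset.1 hy f)).2

theorem QQ_dvd_LA {k j t : ℕ} (ht : t < k) : QQ m j t ∣ LA m k j := by
  unfold LA
  rw [LL]
  exact Finset.dvd_prod_of_mem _ (mem_range.2 ht)

theorem QQ_le_LA {k j t : ℕ} (ht : t < k) : QQ m j t ≤ LA m k j :=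
  Nat.le_of_dvd (LA_pos _ _ _) (QQ_dvd_LA ht)

/-- the static keys of a state are among its keys -/
theorem key_mem {k l t : ℕ} (ht : t < k) {y : Fin 3 → ℕ} (hy : y ∈ Ys m (era l) t) (f : Fin 3) :
    (Ss m l t).key f y ∈ keysOf m k l := by
  show hkey l (t + 2) f (mask (univ.filter (fun g => g < f)) y) ∈ keysOf m k l
  unfold Pool.Agent.Helper11.T5.keysOf hkey
  simp only [mem_product, mem_singleton, mem_range, Fintype.mem_piFinset, true_and]
  refine ⟨by omega, by have := f.2; omega, fun g => ?_⟩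
  have h1 := lt_of_mem_Ys hy g
  have h2 := QQ_le_LA (m := m) (j := era l) ht
  unfold mask Bd
  split_ifs
  · omega
  · omega

/-- hypothesis `hK` of the static block -/
theorem prD_keys {k : ℕ} (he : era l' = era l) (hk : t0 + h ≤ k) {K : Finset Pool.Agent.Helper11.T5.Key}
    (hK : keysOf m k l ⊆ K) (hK' : keysOf m k l' ⊆ K) :
    ∀ r < (prD m l' l t0 h F0).h, ∀ i, ∀ y ∈ (prD m l' l t0 h F0).Y r,
      (prD m l' l t0 h F0).key r i y ∈ K ∧ (prD m l' l t0 h F0).key' r i y ∈ K := by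
  intro r hr i y hy
  have hr' : r < h := hr
  refine ⟨hK (key_mem (k := k) (by omega) hy i), hK' (key_mem (k := k) (t := t0 + r) (by omega) ?_ i)⟩
  rw [he]
  exact hy

end Pool.Agent.Helper55.T5
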