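import Pool.Agent.Helper22.SL.Core
import Pool.Agent.Helper27.T5.Sch
import Pool.Agent.Helper30.T5.Stat

/-!
# T5a (MP_12a1af), SL-N4: the pair of states as an instance of `Pr`

`prOf m sk Y l' l j h F0`: states `l' < l` of one era, `h` static levels `j + 1, ..., j + h`;
`F0` is the common front (`Nj (ef m j l)` if the front `j` is common).
-/

namespace Pool.Agent.Helper55.T5

open Finset Pool.Agent.Helper5.ET Pool.Agent.Helper27.T4 Pool.Agent.Helper27.T5
  Pool.Agent.Helper30.T5 Pool.Agent.Helper22.HW Pool.Agent.Helper22.SL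

variable {κ : Type*}

/-- restriction to the families before `f` -/
def msk (f : Fin 3) (y : Fin 3 → ℕ) : Fin 3 → ℕ := fun g => if g.val < f.val then y g else 0

theorem msk_eq {f : Fin 3} {y y' : Fin 3 → ℕ} (h : ∀ g : Fin 3, g.val < f.val → y g = y' g) :
    msk f y = msk f y' := by
  funext g
  unfold msk
  by_cases hg : g.val < f.val
  · rw [if_pos hg, if_pos hg, h g hg]
  · rw [if_neg hg, if_neg hg]

theorem eq_of_msk {f : Fin 3} {y y' : Fin 3 → ℕ} (h : msk f y = msk f y') :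
    ∀ g : Fin 3, g.val < f.val → y g = y' g := by
  intro g hg
  have h1 := congrFun h g
  unfold msk at h1
  rwa [if_pos hg, if_pos hg] at h1

/-- requirements for the keys of the static levels -/
structure SKey (Mk : κ → ℕ) (m : ℕ) (sk : ℕ → ℕ → Fin 3 → (Fin 3 → ℕ) → κ) : Prop where
  inj : ∀ l i f v l' i' f' v', sk l i f v = sk l' i' f' v' → l = l' ∧ i = i' ∧ f = f' ∧ v = v'
  size : ∀ l i f v, 2 ≤ i → Mk (sk l i f v) = sp (3 * i + f) ^ zz m (era l) i f

/-- the pair of states -/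
noncomputable def prOf (m : ℕ) (sk : ℕ → ℕ → Fin 3 → (Fin 3 → ℕ) → κ)
    (Y : ℕ → Finset (Fin 3 → ℕ)) (l' l j h F0 : ℕ) : Pr κ where
  h := h
  p := fun r f => sp (3 * (j + r + 1) + f)
  z := fun r f => zz m (era l) (j + r + 1) f
  M := Nj l
  M' := Nj l'
  L0 := Lp m (era l) j
  F := fun r => if r = 0 then F0 else Nj (ef m (j + r) l)
  F' := fun r => if r = 0 then F0 else Nj (ef m (j + r) l')
  Y := fun r => Y (j + r + 1)
  key := fun r f y => sk l (j + r + 1) f (msk f y)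
  key' := fun r f y => sk l' (j + r + 1) f (msk f y)

variable {m : ℕ} {sk : ℕ → ℕ → Fin 3 → (Fin 3 → ℕ) → κ} {Y : ℕ → Finset (Fin 3 → ℕ)}
  {l' l j h F0 : ℕ}

theorem prOf_q (r : ℕ) (f : Fin 3) :
    (prOf m sk Y l' l j h F0).q r f = Qf m (era l) (j + r + 1) f := rfl

theorem prOf_Q (r : ℕ) : (prOf m sk Y l' l j h F0).Q r = Qs m (era l) (j + r + 1) := rfl

theorem prOf_F_zero : (prOf m sk Y l' l j h F0).F 0 = F0 := rfl

theorem prOf_F'_zero : (prOf m sk Y l' l j h F0).F' 0 = F0 := rfl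

theorem prOf_F_succ (r : ℕ) : (prOf m sk Y l' l j h F0).F (r + 1) = Nj (ef m (j + r + 1) l) := by
  unfold prOf
  simp only [Nat.succ_ne_zero, if_false]
  rw [add_assoc]

theorem prOf_F'_succ (r : ℕ) :
    (prOf m sk Y l' l j h F0).F' (r + 1) = Nj (ef m (j + r + 1) l') := by
  unfold prOf
  simp only [Nat.succ_ne_zero, if_false]
  rw [add_assoc]

/-- with the true common front -/
theorem prOf_F (r : ℕ) :
    (prOf m sk Y l' l j h (Nj (ef m j l))).F r = Nj (ef m (j + r) l) := by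
  cases r with
  | zero => rfl
  | succ r => exact prOf_F_succ r

theorem prOf_F' (hc : ef m j l' = ef m j l) (r : ℕ) :
    (prOf m sk Y l' l j h (Nj (ef m j l))).F' r = Nj (ef m (j + r) l') := by
  cases r with
  | zero =>
    rw [prOf_F'_zero, Nat.add_zero, hc]
  | succ r => exact prOf_F'_succ r

theorem prOf_L (hj : 1 ≤ j) (r : ℕ) :
    (prOf m sk Y l' l j h F0).L r = Lp m (era l) (j + r) := by
  induction r with
  | zero =>
    unfold Pr.L
    rw [Finset.range_zero, Finset.prod_empty, mul_one]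
    rfl
  | succ r ih =>
    rw [Pr.L_succ, ih, prOf_Q, ← Lp_succ (by omega : 1 ≤ j + r)]
    rfl

theorem coprime_Lp_sp {jj s i : ℕ} (hs : s < i) (f : Fin 3) :
    Nat.Coprime (Lp m jj s) (sp (3 * i + f)) := by
  refine Nat.Coprime.prod_left (fun t ht => ?_)
  rw [mem_Icc] at ht
  unfold Qs Qf
  refine Nat.Coprime.prod_left (fun g _ => Nat.Coprime.pow_left _ (coprime_sp ?_))
  intro e
  have := (idx_inj e).1
  omega

theorem coprime_Lp_two (jj s : ℕ) : Nat.Coprime (Lp m jj s) 2 := by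
  refine Nat.Coprime.prod_left (fun t _ => ?_)
  unfold Qs Qf
  refine Nat.Coprime.prod_left (fun g _ => Nat.Coprime.pow_left _ ?_)
  refine (Nat.coprime_primes (sp_prime _) Nat.prime_two).2 ?_
  have h1 := million_lt_sp (3 * t + g)
  have h2 : (2 : ℕ) ≤ 10 ^ 6 := by norm_num
  omega

/-- the front `F0` fits -/
structure FrOk (m l' l j F0 : ℕ) : Prop where
  pos : 0 < F0
  dvd : Nj l ∣ F0
  dvd' : Nj l' ∣ F0
  nxt : Nj (ef m (j + 1) l) ∣ F0
  nxt' : Nj (ef m (j + 1) l') ∣ F0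
  cop : ∀ s, (Lp m (era l) s).Coprime F0

theorem Nj_dvd' {a b : ℕ} (h : a ≤ b) : Nj a ∣ Nj b := Pool.Agent.Helper50.ET.Nj_dvd h

theorem Nj_pos' (a : ℕ) : 0 < Nj a := NN_pos pr_prime _

/-- the common front of two states -/
theorem frOk_common (hb : 10 * m ≤ la (era l)) (hm : j + 1 < m)
    (he : era l' = era l) (hc : ef m j l' = ef m j l) : FrOk m l' l j (Nj (ef m j l)) where
  pos := Nj_pos' _
  dvd := Nj_dvd' (lt_ef hb (by omega)).le
  dvd' := by
    rw [← hc]
    exact Nj_dvd' (lt_ef (by rw [he]; exact hb) (by omega)).le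
  nxt := Nj_dvd' (ef_anti hb (Nat.le_succ j) hm)
  nxt' := by
    rw [← hc]
    exact Nj_dvd' (ef_anti (by rw [he]; exact hb) (Nat.le_succ j) hm)
  cop := fun s => (coprime_Nj_Lp _ _ _ _).symm

/-- four times the front of the level 1 of the upper state (no common front) -/
theorem frOk_outer (hb : 10 * m ≤ la (era l)) (hm : 2 < m) (hl : l' ≤ l)
    (he : era l' = era l) : FrOk m l' l 1 (4 * Nj (ef m 1 l)) where
  pos := Nat.mul_pos (by norm_num) (Nj_pos' _)
  dvd := Dvd.dvd.mul_left (Nj_dvd' (lt_ef hb (by omega)).le) _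
  dvd' := by
    refine Dvd.dvd.mul_left (Nj_dvd' ?_) _
    have := lt_ef hb (show 1 < m by omega)
    omega
  nxt := Dvd.dvd.mul_left (Nj_dvd' (ef_anti hb (by omega) (by omega))) _
  nxt' := by
    refine Dvd.dvd.mul_left (Nj_dvd' ?_) _
    exact (ef_mono m (1 + 1) hl he).trans (ef_anti hb (by omega) (by omega))
  cop := fun s => by
    have h2 : (4 : ℕ) = 2 ^ 2 := by norm_num
    rw [h2]
    exact Nat.Coprime.mul_right (Nat.Coprime.pow_right 2 (coprime_Lp_two _ _))
      (coprime_Nj_Lp _ _ _ _).symm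

/-- **SL-N4.** -/
theorem prOf_ok {Mk : κ → ℕ} (hsk : SKey Mk m sk) (hb : 10 * m ≤ la (era l)) (hj : 1 ≤ j)
    (hm : j + h < m) (hl : l' < l) (he : era l' = era l) (hF : FrOk m l' l j F0)
    (hY : ∀ i, Pool.Agent.Helper73.T5.SAdm (fun f : Fin 3 => sp (3 * i + f)) (zz m (era l) i)
      (Y i))
    (hsize : ∀ r < h, 2 * ((prOf m sk Y l' l j h F0).F r * (prOf m sk Y l' l j h F0).L r) ≤
      (prOf m sk Y l' l j h F0).F (r + 1) * (prOf m sk Y l' l j h F0).L (r + 1))
    (hzF : ∀ r < h, 6 * (prOf m sk Y l' l j h F0).F r < Nj l' * Qf m (era l) (j + r + 1) 0)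
    (hmid : ∀ r, r + 1 < h → Nj (ef m (j + r + 1) l) ≤
      Nj (ef m (j + r + 1) l') * Qf m (era l) (j + r + 1) 2) :
    (prOf m sk Y l' l j h F0).Ok Mk := by
  have hb' : 10 * m ≤ la (era l') := by rw [he]; exact hb
  have hp2 : ∀ n, sp n ≠ 2 := by
    intro n
    have h1 := million_lt_sp n
    have h2 : (2 : ℕ) ≤ 10 ^ 6 := by norm_num
    omega
  have hFs := fun r => prOf_F_succ (m := m) (sk := sk) (Y := Y) (l' := l') (l := l) (j := j)
    (h := h) (F0 := F0) r
  have hFs' := fun r => prOf_F'_succ (m := m) (sk := sk) (Y := Y) (l' := l') (l := l) (j := j)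
    (h := h) (F0 := F0) r
  have hL := fun r => prOf_L (m := m) (sk := sk) (Y := Y) (l' := l') (l := l) (h := h)
    (F0 := F0) hj r
  refine
    { prime := fun r i => sp_prime _
      odd := fun r i => hp2 _
      inj := ?_
      sok := ?_
      sok' := ?_
      adm := fun r => hY _
      kd := ?_
      kd' := ?_
      kdd' := ?_
      com := rfl
      posF := hF.pos
      posM' := Nj_pos' _
      posL := Lp_pos _ _ _
      M'M := Nj_dvd' hl.le
      MF := ?_
      M'F' := ?_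
      F'F := ?_
      FF := ?_
      F'F' := ?_
      copL := ?_
      size := hsize
      zF := hzF
      mid := ?_ }
  · intro r f f' hff
    exact (idx_inj (sp_injective hff)).2
  · intro r hr
    refine ⟨?_, ?_, fun i => le_rfl, ?_, ?_, ?_⟩
    · show 0 < (prOf m sk Y l' l j h F0).F (r + 1) * (prOf m sk Y l' l j h F0).L r
      rw [hFs, hL]
      exact Nat.mul_pos (Nj_pos' _) (Lp_pos _ _ _)
    · intro i
      show ((prOf m sk Y l' l j h F0).F (r + 1) * (prOf m sk Y l' l j h F0).L r).Coprime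
        (sp (3 * (j + r + 1) + i))
      rw [hFs, hL]
      exact Nat.Coprime.mul_left (coprime_Nj_sp _ _) (coprime_Lp_sp (by omega) i)
    · intro i y y' hyy
      show sk l (j + r + 1) i (msk i y) = sk l (j + r + 1) i (msk i y')
      rw [msk_eq hyy]
    · intro i i' y y' hk
      obtain ⟨-, -, hi, hv⟩ := hsk.inj _ _ _ _ _ _ _ _ hk
      subst hi
      exact ⟨rfl, eq_of_msk hv⟩
    · intro i y
      exact hsk.size _ _ _ _ (by omega)
  · intro r hr
    refine ⟨?_, ?_, fun i => le_rfl, ?_, ?_, ?_⟩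
    · show 0 < (prOf m sk Y l' l j h F0).F' (r + 1) * (prOf m sk Y l' l j h F0).L r
      rw [hFs', hL]
      exact Nat.mul_pos (Nj_pos' _) (Lp_pos _ _ _)
    · intro i
      show ((prOf m sk Y l' l j h F0).F' (r + 1) * (prOf m sk Y l' l j h F0).L r).Coprime
        (sp (3 * (j + r + 1) + i))
      rw [hFs', hL]
      exact Nat.Coprime.mul_left (coprime_Nj_sp _ _) (coprime_Lp_sp (by omega) i)
    · intro i y y' hyy
      show sk l' (j + r + 1) i (msk i y) = sk l' (j + r + 1) i (msk i y')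
      rw [msk_eq hyy]
    · intro i i' y y' hk
      obtain ⟨-, -, hi, hv⟩ := hsk.inj _ _ _ _ _ _ _ _ hk
      subst hi
      exact ⟨rfl, eq_of_msk hv⟩
    · intro i y
      show Mk (sk l' (j + r + 1) i (msk i y)) = sp (3 * (j + r + 1) + i) ^ zz m (era l) (j + r + 1) i
      rw [hsk.size _ _ _ _ (by omega), he]
  · intro r r' hrr i y i' y' hk
    have h1 := (hsk.inj _ _ _ _ _ _ _ _ hk).2.1
    omega
  · intro r r' hrr i y i' y' hk
    have h1 := (hsk.inj _ _ _ _ _ _ _ _ hk).2.1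
    omega
  · intro r r' i y i' y' hk
    have h1 := (hsk.inj _ _ _ _ _ _ _ _ hk).1
    omega
  · intro r hr
    cases r with
    | zero => exact hF.dvd
    | succ r =>
      rw [hFs]
      exact Nj_dvd' (lt_ef hb (show j + r + 1 < m by have : r + 1 ≤ h := hr; omega)).le
  · intro r hr
    cases r with
    | zero => exact hF.dvd'
    | succ r =>
      rw [hFs']
      exact Nj_dvd' (lt_ef hb' (show j + r + 1 < m by have : r + 1 ≤ h := hr; omega)).le
  · intro r hr
    cases r with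
    | zero => exact dvd_rfl
    | succ r =>
      rw [hFs, hFs']
      exact Nj_dvd' (ef_mono _ _ hl.le he)
  · intro r hr
    have hr' : r < h := hr
    cases r with
    | zero => rw [hFs, prOf_F_zero]; exact hF.nxt
    | succ r =>
      rw [hFs, hFs]
      exact Nj_dvd' (ef_anti hb (by omega) (by omega))
  · intro r hr
    have hr' : r < h := hr
    cases r with
    | zero => rw [hFs', prOf_F'_zero]; exact hF.nxt'
    | succ r =>
      rw [hFs', hFs']
      exact Nj_dvd' (ef_anti hb' (by omega) (by omega))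
  · intro r hr
    rw [hL]
    exact hF.cop _
  · intro r hr
    rw [hFs, hFs']
    exact hmid r hr

/-! ## the numbers `A`, `W`, `Γ` -/

/-- bound for the product of the constants of the levels -/
noncomputable def Ac (k : ℕ) : ℝ := (200 * (sp (3 * (k + 1) + 3) : ℝ) * sp (3 * (k + 1) + 3)) ^ (k + 1)

theorem one_le_sp_real (n : ℕ) : (1 : ℝ) ≤ sp n := by exact_mod_cast sp_pos n

theorem prOf_A_le {k r : ℕ} (hk : j + r ≤ k + 1) :
    (prOf m sk Y l' l j h F0).A r ≤ Ac k := by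
  unfold Pr.A Ac
  have h1 : ∀ t ∈ range r, (200 * ((prOf m sk Y l' l j h F0).p t 0 : ℝ) *
      (prOf m sk Y l' l j h F0).p t 1) ≤
      200 * (sp (3 * (k + 1) + 3) : ℝ) * sp (3 * (k + 1) + 3) := by
    intro t ht
    rw [mem_range] at ht
    have e0 : ((prOf m sk Y l' l j h F0).p t 0 : ℝ) ≤ sp (3 * (k + 1) + 3) := by
      have : sp (3 * (j + t + 1) + (0 : Fin 3)) ≤ sp (3 * (k + 1) + 3) :=
        sp_strictMono.monotone (by simp only [Fin.val_zero]; omega)
      exact_mod_cast this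
    have e1 : ((prOf m sk Y l' l j h F0).p t 1 : ℝ) ≤ sp (3 * (k + 1) + 3) := by
      have : sp (3 * (j + t + 1) + (1 : Fin 3)) ≤ sp (3 * (k + 1) + 3) :=
        sp_strictMono.monotone (by simp only [Fin.val_one]; omega)
      exact_mod_cast this
    have e2 : (0 : ℝ) ≤ ((prOf m sk Y l' l j h F0).p t 1 : ℝ) := Nat.cast_nonneg _
    have e3 : (0 : ℝ) ≤ ((sp (3 * (k + 1) + 3) : ℕ) : ℝ) := Nat.cast_nonneg _
    generalize ((sp (3 * (k + 1) + 3) : ℕ) : ℝ) = B at e0 e1 e3 ⊢
    exact mul_le_mul (mul_le_mul_of_nonneg_left e0 (by norm_num)) e1 e2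
      (mul_nonneg (by norm_num) e3)
  refine (Finset.prod_le_prod (fun t _ => by positivity) h1).trans ?_
  rw [Finset.prod_const, card_range]
  refine pow_le_pow_right₀ ?_ (by omega)
  have e4 := one_le_sp_real (3 * (k + 1) + 3)
  generalize ((sp (3 * (k + 1) + 3) : ℕ) : ℝ) = B at e4 ⊢
  nlinarith

theorem prOf_A_nonneg (r : ℕ) : 0 ≤ (prOf m sk Y l' l j h F0).A r :=
  Finset.prod_nonneg (fun _ _ => by positivity)

/-- a quotient of two products of moduli -/
theorem prod_Qs_le (hm : j + h < m) (hr : 8 ≤ rt m (era l)) {r : ℕ} (hrh : r ≤ h) :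
    ∏ t ∈ range r, Qs m (era l) (j + t + 1) ≤ (10 ^ 6) ^ (W m (era l) j - W m (era l) (j + r)) := by
  induction r with
  | zero => simp
  | succ r ih =>
    rw [Finset.prod_range_succ]
    have e2 := Qs_le (j := era l) (i := j + r + 1) (by omega : j + r + 1 + 1 ≤ m) hr
    have e3 : W m (era l) (j + r + 1) ≤ W m (era l) (j + r) := W_anti m _ (by omega)
    have e4 : W m (era l) (j + r) ≤ W m (era l) j := W_anti m _ (by omega)
    rw [Nat.add_sub_cancel] at e2
    calc (∏ t ∈ range r, Qs m (era l) (j + t + 1)) * Qs m (era l) (j + r + 1)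
        ≤ (10 ^ 6) ^ (W m (era l) j - W m (era l) (j + r)) *
          (10 ^ 6) ^ (W m (era l) (j + r) - W m (era l) (j + r + 1)) :=
          Nat.mul_le_mul (ih (by omega)) e2
      _ = (10 ^ 6) ^ (W m (era l) j - W m (era l) (j + (r + 1))) := by
          rw [← pow_add]
          congr 1
          rw [← add_assoc]
          omega

theorem Qf_le_Qs (jj i : ℕ) (f : Fin 3) : Qf m jj i f ≤ Qs m jj i := by
  unfold Qs
  exact Finset.single_le_prod' (fun g _ => Qf_pos m jj i g) (mem_univ f)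

theorem pw2 (B : ℝ) (w : ℕ) : B ^ (2 * w) = (B ^ w) ^ 2 := by rw [← pow_mul, mul_comm]

theorem pw5 (B : ℝ) (w : ℕ) : B ^ (5 * w) = B ^ w * B ^ w * ((B ^ w) ^ 2 * B ^ w) := by ring

theorem prOf_W_le (hm : j + h < m) (hr : 8 ≤ rt m (era l)) {r : ℕ} (hrh : r ≤ h) :
    (prOf m sk Y l' l j h F0).W r ≤ ((10 : ℝ) ^ 6) ^ (2 * W m (era l) j) := by
  unfold Pr.W
  rw [Finset.prod_pow]
  have h1 : ∏ t ∈ range r, ((prOf m sk Y l' l j h F0).q t 2 : ℕ) ≤ (10 ^ 6) ^ (W m (era l) j) := by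
    refine (Finset.prod_le_prod' (fun t _ => Qf_le_Qs (era l) (j + t + 1) 2)).trans ?_
    exact (prod_Qs_le hm hr hrh).trans (Nat.pow_le_pow_right (by norm_num) (Nat.sub_le _ _))
  have h2 : (∏ t ∈ range r, (((prOf m sk Y l' l j h F0).q t 2 : ℕ) : ℝ)) ≤
      ((10 : ℝ) ^ 6) ^ (W m (era l) j) := by
    exact_mod_cast h1
  calc (∏ t ∈ range r, (((prOf m sk Y l' l j h F0).q t 2 : ℕ) : ℝ)) ^ 2
      ≤ (((10 : ℝ) ^ 6) ^ (W m (era l) j)) ^ 2 :=
        pow_le_pow_left₀ (Finset.prod_nonneg (fun _ _ => Nat.cast_nonneg _)) h2 2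
    _ = ((10 : ℝ) ^ 6) ^ (2 * W m (era l) j) := (pw2 _ _).symm

theorem prOf_W_nonneg (r : ℕ) : 0 ≤ (prOf m sk Y l' l j h F0).W r :=
  Finset.prod_nonneg (fun _ _ => by positivity)

theorem prOf_q_le (hm : j + h < m) (hr : 8 ≤ rt m (era l)) {r : ℕ} (hrh : r < h) (f : Fin 3) :
    (((prOf m sk Y l' l j h F0).q r f : ℕ) : ℝ) ≤ ((10 : ℝ) ^ 6) ^ (W m (era l) j) := by
  have e2 := Qs_le (j := era l) (i := j + r + 1) (by omega : j + r + 1 + 1 ≤ m) hr
  rw [Nat.add_sub_cancel] at e2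
  have e4 : W m (era l) (j + r) ≤ W m (era l) j := W_anti m _ (by omega)
  have h1 : (prOf m sk Y l' l j h F0).q r f ≤ (10 ^ 6) ^ (W m (era l) j) :=
    ((Qf_le_Qs (era l) (j + r + 1) f).trans e2).trans
      (Nat.pow_le_pow_right (by norm_num) ((Nat.sub_le _ _).trans e4))
  exact_mod_cast h1

/-- **the number `Γ` of the static block** -/
theorem prOf_gam (hm : j + h < m) (hr : 8 ≤ rt m (era l)) :
    (∀ r < h, (((prOf m sk Y l' l j h F0).q r 0 * (prOf m sk Y l' l j h F0).q r 1 : ℕ) : ℝ) *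
      ((prOf m sk Y l' l j h F0).W r * (prOf m sk Y l' l j h F0).q r 1) ≤
        ((10 : ℝ) ^ 6) ^ (5 * W m (era l) j)) ∧
    (prOf m sk Y l' l j h F0).W h ≤ ((10 : ℝ) ^ 6) ^ (5 * W m (era l) j) := by
  constructor
  · intro r hrh
    have e0 := prOf_q_le (sk := sk) (Y := Y) (l' := l') (F0 := F0) hm hr hrh 0
    have e1 := prOf_q_le (sk := sk) (Y := Y) (l' := l') (F0 := F0) hm hr hrh 1
    have e2 := prOf_W_le (sk := sk) (Y := Y) (l' := l') (F0 := F0) hm hr hrh.le
    have n2 := prOf_W_nonneg (m := m) (sk := sk) (Y := Y) (l' := l') (l := l) (j := j) (h := h)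
      (F0 := F0) r
    set X := ((10 : ℝ) ^ 6) ^ (W m (era l) j) with hX
    have hX0 : 0 ≤ X := by positivity
    have e3 : ((10 : ℝ) ^ 6) ^ (2 * W m (era l) j) = X ^ 2 := pw2 _ _
    have e4 : ((10 : ℝ) ^ 6) ^ (5 * W m (era l) j) = X * X * (X ^ 2 * X) := pw5 _ _
    rw [e3] at e2
    rw [e4]
    push_cast
    refine mul_le_mul (mul_le_mul e0 e1 (Nat.cast_nonneg _) hX0)
      (mul_le_mul e2 e1 (Nat.cast_nonneg _) (by positivity)) ?_ (by positivity)
    exact mul_nonneg n2 (Nat.cast_nonneg _)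
  · refine (prOf_W_le hm hr le_rfl).trans ?_
    exact pow_le_pow_right₀ (by norm_num) (by omega)

end Pool.Agent.Helper55.T5
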